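import Mathlib

/-!
# Bipartite plus bounded degree: the bound on the number of edges is false

For every `n ≥ 14` there are graphs with `binom (2n+1) 2 - binom n 2 - 1` edges which are not the
union of a bipartite graph and a graph of maximum degree at most `n - 1`.

Construction (`t = 4`). A hub is joined to all vertices of `P ∪ Q`, where `|P| = n`; every vertex of
`P` has `n + t - 1` neighbours in `Q`, and every vertex of `Q` has at most `t` neighbours in `P`.
If the part `A` of the hub contains at most `n - 1` of its neighbours, then each vertex of `P`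
outside `A` has at least `t` neighbours in `A ∩ Q`, and double counting gives
`t (n - |A ∩ P|) ≤ t |A ∩ Q|`, a contradiction. The number of edges is about `5 n ^ 2 / 4`.
-/

set_option autoImplicit false

namespace Pool.Agent.Results.MP_270b6b_co.HubCounterexample

open Finset

/-- Property `P_n`: the edge set of `G` is the union of the edge sets of a bipartite graph `B` and a
graph `D` of maximum degree at most `n - 1`, both on the vertex set of `G`. -/
def PropertyP {V : Type*} (n : ℕ) (G : SimpleGraph V) : Prop :=
  ∃ B D : SimpleGraph V, B.IsBipartite ∧ (∀ v, (D.neighborSet v).ncard ≤ n - 1) ∧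
    G.edgeSet = B.edgeSet ∪ D.edgeSet

/-- The relation between `x ∈ P` and `y ∈ Q`. -/
def link (n x y : ℕ) : Prop := ∃ a < n + 3, (a * n + x) / 4 = y

/-- Adjacency for `i < j`; the hub is `0`, the vertices of `P` are `1, …, n`. -/
def rel (n q i j : ℕ) : Prop :=
  (i = 0 ∧ 0 < j ∧ j ≤ n + q) ∨
    (1 ≤ i ∧ i ≤ n ∧ n < j ∧ link n (i - 1) (j - (n + 1)))

/-- The graph. -/
def hubGraph (n q m : ℕ) : SimpleGraph (Fin m) where
  Adj i j := rel n q i.1 j.1 ∨ rel n q j.1 i.1
  symm := ⟨fun i j h => h.symm⟩
  loopless := ⟨fun i h => by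
    have : rel n q i.1 i.1 := or_self_iff.1 h
    rcases this with ⟨h1, h2, _⟩ | ⟨_, h2, h3, _⟩ <;> omega⟩

/-- A part of a partition, all of whose vertices have few neighbours in it. -/
theorem part_of_property {V : Type*} [Finite V] (n : ℕ) (G : SimpleGraph V)
    (h : PropertyP n G) (v0 : V) :
    ∃ A : Set V, v0 ∈ A ∧ ∀ v, (v ∈ A → (G.neighborSet v ∩ A).ncard ≤ n - 1) ∧
      (v ∉ A → (G.neighborSet v ∩ Aᶜ).ncard ≤ n - 1) := by
  obtain ⟨B, D, hB, hD, hE⟩ := h
  obtain ⟨C⟩ := hB
  have hadj : ∀ u v, G.Adj u v → C u = C v → D.Adj u v := by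
    intro u v huv hc
    have : s(u, v) ∈ B.edgeSet ∪ D.edgeSet := by
      rw [← hE]; exact huv
    rcases this with h1 | h1
    · exact absurd hc (C.valid h1)
    · exact h1
  refine ⟨{v | C v = C v0}, rfl, fun v => ⟨fun hv => ?_, fun hv => ?_⟩⟩
  · refine le_trans (Set.ncard_le_ncard ?_ (Set.toFinite _)) (hD v)
    rintro w ⟨hw1, hw2⟩
    have hw2' : C w = C v0 := hw2
    have hv' : C v = C v0 := hv
    exact hadj v w hw1 (by rw [hv', hw2'])
  · refine le_trans (Set.ncard_le_ncard ?_ (Set.toFinite _)) (hD v)
    rintro w ⟨hw1, hw2⟩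
    have hw2' : ¬ C w = C v0 := hw2
    have hv' : ¬ C v = C v0 := hv
    refine hadj v w hw1 ?_
    have h2 : ∀ a b c : Fin 2, a ≠ c → b ≠ c → a = b := by decide
    exact h2 _ _ _ hv' hw2'

/-- Every `x` has `n + 3` neighbours in `Q`. -/
theorem card_link_above (n x q : ℕ) (hn : 4 ≤ n) (hx : x < n) (hq : n * (n + 3) ≤ 4 * q)
    [∀ y, Decidable (link n x y)] :
    n + 3 ≤ ((range q).filter (fun y => link n x y)).card := by
  have himg : (range (n + 3)).image (fun a => (a * n + x) / 4) ⊆
      (range q).filter (fun y => link n x y) := by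
    intro y hy
    rw [mem_image] at hy
    obtain ⟨a, ha, rfl⟩ := hy
    rw [mem_range] at ha
    rw [mem_filter, mem_range]
    refine ⟨?_, a, ha, rfl⟩
    have h1 : a * n + x < n * (n + 3) := by
      have : (a + 1) * n ≤ (n + 3) * n := Nat.mul_le_mul_right n ha
      nlinarith
    omega
  have hinj : Set.InjOn (fun a => (a * n + x) / 4) (range (n + 3) : Set ℕ) := by
    intro a _ b _ hab
    simp only at hab
    rcases lt_trichotomy a b with h | h | h
    · exfalso
      have : (a + 1) * n ≤ b * n := Nat.mul_le_mul_right n h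
      have h2 : a * n + 4 ≤ b * n := by nlinarith
      omega
    · exact h
    · exfalso
      have : (b + 1) * n ≤ a * n := Nat.mul_le_mul_right n h
      have h2 : b * n + 4 ≤ a * n := by nlinarith
      omega
  calc n + 3 = (range (n + 3)).card := (card_range _).symm
    _ = ((range (n + 3)).image (fun a => (a * n + x) / 4)).card :=
        (card_image_of_injOn hinj).symm
    _ ≤ _ := card_le_card himg

/-- Every `y` has at most four neighbours in `P`. -/
theorem card_link_below (n y : ℕ) (S : Finset ℕ) (hS : ∀ x ∈ S, x < n)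
    [∀ x, Decidable (link n x y)] :
    (S.filter (fun x => link n x y)).card ≤ 4 := by
  have hsub : S.filter (fun x => link n x y) ⊆
      (range 4).image (fun r => (4 * y + r) % n) := by
    intro x hx
    rw [mem_filter] at hx
    obtain ⟨hxS, a, _, hay⟩ := hx
    rw [mem_image]
    refine ⟨a * n + x - 4 * y, ?_, ?_⟩
    · rw [mem_range]; omega
    · have h1 : 4 * y + (a * n + x - 4 * y) = x + n * a := by
        have : a * n = n * a := mul_comm _ _
        omega
      rw [h1, Nat.add_mul_mod_self_left, Nat.mod_eq_of_lt (hS x hxS)]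
  calc _ ≤ ((range 4).image (fun r => (4 * y + r) % n)).card := card_le_card hsub
    _ ≤ (range 4).card := card_image_le
    _ = 4 := card_range 4

theorem not_property (n q m : ℕ) (hn : 4 ≤ n) (hq : n * (n + 3) ≤ 4 * q) (hm : n + q < m) :
    ¬ PropertyP n (hubGraph n q m) := by
  classical
  intro hP
  have hm0 : 0 < m := by omega
  obtain ⟨A, h0, hA⟩ := part_of_property n (hubGraph n q m) hP ⟨0, hm0⟩
  set g : ℕ → Fin m := fun i => if h : i < m then ⟨i, h⟩ else ⟨0, hm0⟩ with hg
  have gval : ∀ i, i < m → (g i).1 = i := by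
    intro i hi; simp [hg, hi]
  have ginj : ∀ i j, i < m → j < m → g i = g j → i = j := by
    intro i j hi hj h
    rw [← gval i hi, ← gval j hj, h]
  set PA := (range n).filter (fun x => g (x + 1) ∈ A) with hPA
  set QA := (range q).filter (fun y => g (n + 1 + y) ∈ A) with hQA
  set PB := (range n).filter (fun x => g (x + 1) ∉ A) with hPB
  -- the neighbours of the hub in `A`
  have hub : PA.card + QA.card ≤ n - 1 := by
    have h1 := (hA ⟨0, hm0⟩).1 h0
    refine le_trans ?_ h1
    have hsub : (((PA.image (fun x => g (x + 1))) ∪ (QA.image (fun y => g (n + 1 + y))) :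
        Finset (Fin m)) : Set (Fin m)) ⊆ (hubGraph n q m).neighborSet ⟨0, hm0⟩ ∩ A := by
      intro w hw
      rw [mem_coe, mem_union, mem_image, mem_image] at hw
      rcases hw with ⟨x, hx, rfl⟩ | ⟨y, hy, rfl⟩
      · rw [hPA, mem_filter, mem_range] at hx
        refine ⟨?_, hx.2⟩
        left
        left
        refine ⟨rfl, ?_, ?_⟩
        · rw [gval _ (by omega)]; omega
        · rw [gval _ (by omega)]; omega
      · rw [hQA, mem_filter, mem_range] at hy
        refine ⟨?_, hy.2⟩
        left
        left
        refine ⟨rfl, ?_, ?_⟩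
        · rw [gval _ (by omega)]; omega
        · rw [gval _ (by omega)]; omega
    have hcard : ((PA.image (fun x => g (x + 1))) ∪ (QA.image (fun y => g (n + 1 + y)))).card =
        PA.card + QA.card := by
      rw [card_union_of_disjoint, card_image_of_injOn, card_image_of_injOn]
      · intro y hy y' hy' h
        rw [mem_coe, hQA, mem_filter, mem_range] at hy hy'
        have := ginj _ _ (by omega) (by omega) h
        omega
      · intro x hx x' hx' h
        rw [mem_coe, hPA, mem_filter, mem_range] at hx hx'
        have := ginj _ _ (by omega) (by omega) h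
        omega
      · rw [disjoint_left]
        intro w hw hw'
        rw [mem_image] at hw hw'
        obtain ⟨x, hx, rfl⟩ := hw
        obtain ⟨y, hy, hxy⟩ := hw'
        rw [hPA, mem_filter, mem_range] at hx
        rw [hQA, mem_filter, mem_range] at hy
        have := ginj _ _ (by omega) (by omega) hxy
        omega
    rw [← hcard, ← Set.ncard_coe_finset]
    exact Set.ncard_le_ncard hsub (Set.toFinite _)
  -- every vertex of `P` outside `A` has at least four neighbours in `A`
  have h4 : ∀ x ∈ PB, 4 ≤ (QA.bipartiteAbove (fun x y => link n x y) x).card := by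
    intro x hx
    rw [hPB, mem_filter, mem_range] at hx
    obtain ⟨hxn, hxA⟩ := hx
    have h1 := (hA (g (x + 1))).2 hxA
    set NB := ((range q).filter (fun y => link n x y)).filter (fun y => g (n + 1 + y) ∉ A)
      with hNB
    have h2 : NB.card ≤ n - 1 := by
      refine le_trans ?_ h1
      have hsub : ((NB.image (fun y => g (n + 1 + y)) : Finset (Fin m)) : Set (Fin m)) ⊆
          (hubGraph n q m).neighborSet (g (x + 1)) ∩ Aᶜ := by
        intro w hw
        rw [mem_coe, mem_image] at hw
        obtain ⟨y, hy, rfl⟩ := hw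
        rw [hNB, mem_filter, mem_filter, mem_range] at hy
        refine ⟨?_, hy.2⟩
        left
        right
        rw [gval _ (by omega), gval _ (by omega)]
        refine ⟨by omega, by omega, by omega, ?_⟩
        have e1 : x + 1 - 1 = x := by omega
        have e2 : n + 1 + y - (n + 1) = y := by omega
        rw [e1, e2]
        exact hy.1.2
      have hcard : (NB.image (fun y => g (n + 1 + y))).card = NB.card := by
        rw [card_image_of_injOn]
        intro y hy y' hy' h
        rw [mem_coe, hNB, mem_filter, mem_filter, mem_range] at hy hy'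
        have := ginj _ _ (by omega) (by omega) h
        omega
      rw [← hcard, ← Set.ncard_coe_finset]
      exact Set.ncard_le_ncard hsub (Set.toFinite _)
    have h3 := card_link_above n x q hn hxn hq
    have h5 : ((range q).filter (fun y => link n x y)).card =
        (((range q).filter (fun y => link n x y)).filter (fun y => g (n + 1 + y) ∈ A)).card +
          NB.card := by
      rw [hNB]
      exact (card_filter_add_card_filter_not (s := (range q).filter (fun y => link n x y))
        (fun y => g (n + 1 + y) ∈ A)).symm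
    have h6 : ((range q).filter (fun y => link n x y)).filter (fun y => g (n + 1 + y) ∈ A) =
        QA.bipartiteAbove (fun x y => link n x y) x := by
      rw [hQA, bipartiteAbove, filter_filter, filter_filter]
      apply filter_congr
      intro y _
      exact and_comm
    rw [h6] at h5
    omega
  have h7 : ∀ y ∈ QA, (PB.bipartiteBelow (fun x y => link n x y) y).card ≤ 4 := by
    intro y _
    apply card_link_below n y PB
    intro x hx
    rw [hPB, mem_filter, mem_range] at hx
    exact hx.1
  have h8 := card_mul_le_card_mul (fun x y => link n x y) h4 h7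
  have h9 : PA.card + PB.card = n := by
    rw [hPA, hPB, card_filter_add_card_filter_not, card_range]
  omega

theorem edge_bound (n q m : ℕ) (hm : n + q < m) :
    (hubGraph n q m).edgeSet.ncard ≤ n + q + n * (n + 3) := by
  classical
  have hm0 : 0 < m := by omega
  set g : ℕ → Fin m := fun i => if h : i < m then ⟨i, h⟩ else ⟨0, hm0⟩ with hg
  have gof : ∀ (i : Fin m) (k : ℕ), i.1 = k → g k = i := by
    intro i k h
    subst h
    simp [hg]
  set E1 : Finset (Sym2 (Fin m)) := (range (n + q)).image (fun j => s(g 0, g (j + 1))) with hE1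
  set E2 : Finset (Sym2 (Fin m)) := ((range n) ×ˢ (range (n + 3))).image
    (fun p => s(g (p.1 + 1), g (n + 1 + (p.2 * n + p.1) / 4))) with hE2
  have key : ∀ i j : Fin m, rel n q i.1 j.1 → s(i, j) ∈ E1 ∪ E2 := by
    intro i j hij
    rw [mem_union]
    rcases hij with ⟨h1, h2, h3⟩ | ⟨h1, h2, h3, a, ha, h4⟩
    · left
      rw [hE1, mem_image]
      refine ⟨j.1 - 1, ?_, ?_⟩
      · rw [mem_range]; omega
      · rw [gof i 0 h1, gof j (j.1 - 1 + 1) (by omega)]
    · right
      rw [hE2, mem_image]
      refine ⟨(i.1 - 1, a), ?_, ?_⟩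
      · rw [mem_product, mem_range, mem_range]
        exact ⟨by simp only; omega, ha⟩
      · simp only
        rw [gof i (i.1 - 1 + 1) (by omega), gof j (n + 1 + (a * n + (i.1 - 1)) / 4) (by omega)]
  have hsub : (hubGraph n q m).edgeSet ⊆ ((E1 ∪ E2 : Finset (Sym2 (Fin m))) : Set _) := by
    intro e he
    induction e using Sym2.ind with
    | _ i j =>
      rcases he with h | h
      · exact key i j h
      · rw [Sym2.eq_swap]; exact key j i h
  calc (hubGraph n q m).edgeSet.ncard ≤ ((E1 ∪ E2 : Finset (Sym2 (Fin m))) : Set _).ncard :=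
        Set.ncard_le_ncard hsub (Set.toFinite _)
    _ = (E1 ∪ E2).card := Set.ncard_coe_finset _
    _ ≤ E1.card + E2.card := card_union_le _ _
    _ ≤ (n + q) + n * (n + 3) := by
        apply Nat.add_le_add
        · exact card_image_le.trans (by rw [card_range])
        · refine card_image_le.trans ?_
          rw [card_product, card_range, card_range]

/-- Adding edges. -/
theorem exists_supergraph {m : ℕ} (G : SimpleGraph (Fin m)) (e : ℕ)
    (h1 : G.edgeSet.ncard ≤ e) (h2 : e ≤ m.choose 2) :
    ∃ G' : SimpleGraph (Fin m), G ≤ G' ∧ G'.edgeSet.ncard = e := by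
  classical
  have hG : G.edgeFinset.card ≤ e := by
    rw [← Set.ncard_coe_finset, SimpleGraph.coe_edgeFinset]; exact h1
  have hT : e ≤ (⊤ : SimpleGraph (Fin m)).edgeFinset.card := by
    rw [SimpleGraph.card_edgeFinset_top_eq_card_choose_two, Fintype.card_fin]; exact h2
  obtain ⟨S, hS1, hS2, hS3⟩ := exists_subsuperset_card_eq
    (SimpleGraph.edgeFinset_mono (le_top : G ≤ ⊤)) hG hT
  refine ⟨SimpleGraph.fromEdgeSet (S : Set (Sym2 (Fin m))), ?_, ?_⟩
  · rw [← SimpleGraph.edgeSet_subset_edgeSet, SimpleGraph.edgeSet_fromEdgeSet]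
    intro x hx
    refine ⟨hS1 (SimpleGraph.mem_edgeFinset.2 hx), ?_⟩
    exact fun hd => G.not_isDiag_of_mem_edgeSet hx hd
  · rw [SimpleGraph.edgeSet_fromEdgeSet]
    have : (S : Set (Sym2 (Fin m))) \ Sym2.diagSet = (S : Set (Sym2 (Fin m))) := by
      ext x
      constructor
      · exact fun h => h.1
      · intro h
        refine ⟨h, fun hd => ?_⟩
        have := hS2 h
        rw [SimpleGraph.mem_edgeFinset] at this
        exact (⊤ : SimpleGraph (Fin m)).not_isDiag_of_mem_edgeSet this hd
    rw [this, Set.ncard_coe_finset, hS3]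

/-- The property is inherited by subgraphs on the same vertex set. -/
theorem PropertyP.mono {V : Type*} [Finite V] {n : ℕ} {G G' : SimpleGraph V} (hle : G ≤ G')
    (h : PropertyP n G') : PropertyP n G := by
  obtain ⟨B, D, hB, hD, hE⟩ := h
  refine ⟨B ⊓ G, D ⊓ G, ?_, ?_, ?_⟩
  · exact hB.mono_left inf_le_left
  · intro v
    refine le_trans (Set.ncard_le_ncard ?_ (Set.toFinite _)) (hD v)
    intro w hw
    exact hw.1
  · have h1 : G.edgeSet ⊆ G'.edgeSet := SimpleGraph.edgeSet_subset_edgeSet.2 hle
    rw [SimpleGraph.edgeSet_inf, SimpleGraph.edgeSet_inf, ← Set.union_inter_distrib_right, ← hE]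
    exact (Set.inter_eq_right.2 h1).symm

theorem two_choose (n : ℕ) : 2 * n.choose 2 + n = n * n := by
  induction n with
  | zero => rfl
  | succ k ih =>
    rw [Nat.choose_succ_succ' k 1, Nat.choose_one_right]
    nlinarith

/-- For every `n ≥ 14` and every `m ≥ ⌊n (n + 3) / 4⌋ + n + 2` there is a graph with `m` vertices and
exactly `binom (2n+1) 2 - binom n 2 - 1` edges without property `P_n`; in particular the assertion
that for `n ≥ 3` and `m ≥ 2n + 2` all graphs with these numbers of vertices and edges have
property `P_n` is false. -/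
theorem result :
    (∀ n m : ℕ, 14 ≤ n → n * (n + 3) / 4 + n + 2 ≤ m →
      ∃ G : SimpleGraph (Fin m),
        G.edgeSet.ncard = (2 * n + 1).choose 2 - n.choose 2 - 1 ∧ ¬ PropertyP n G) ∧
    ¬ (∀ n m : ℕ, 3 ≤ n → 2 * n + 2 ≤ m → ∀ G : SimpleGraph (Fin m),
        G.edgeSet.ncard = (2 * n + 1).choose 2 - n.choose 2 - 1 → PropertyP n G) := by
  have main : ∀ n m : ℕ, 14 ≤ n → n * (n + 3) / 4 + n + 2 ≤ m →
      ∃ G : SimpleGraph (Fin m),
        G.edgeSet.ncard = (2 * n + 1).choose 2 - n.choose 2 - 1 ∧ ¬ PropertyP n G := by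
    intro n m hn hm
    set q := (n * (n + 3) + 3) / 4 with hq
    have hq1 : n * (n + 3) ≤ 4 * q := by omega
    have hqm : n + q < m := by omega
    have h1 := two_choose n
    have h2 := two_choose (2 * n + 1)
    have h3 : n * (n + 3) = n * n + 3 * n := by ring
    have h4 : (2 * n + 1) * (2 * n + 1) = 4 * (n * n) + 4 * n + 1 := by ring
    have h5 : 14 * n ≤ n * n := Nat.mul_le_mul_right n hn
    obtain ⟨G, hG1, hG2⟩ := exists_supergraph (hubGraph n q m)
      ((2 * n + 1).choose 2 - n.choose 2 - 1)
      (by
        refine (edge_bound n q m hqm).trans ?_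
        omega)
      (by
        have h6 : (2 * n + 1).choose 2 ≤ m.choose 2 := by
          apply Nat.choose_le_choose
          omega
        omega)
    exact ⟨G, hG2, fun hP => not_property n q m (by omega) hq1 hqm (hP.mono hG1)⟩
  refine ⟨main, fun h => ?_⟩
  obtain ⟨G, hG1, hG2⟩ := main 14 80 le_rfl (by norm_num)
  exact hG2 (h 14 80 (by norm_num) (by norm_num) G hG1)

end Pool.Agent.Results.MP_270b6b_co.HubCounterexample
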